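import Pool.Agent.Y375.TG.Fam
import Pool.Agent.Y375.TG.MO
import Pool.Agent.Results.MP_35cd17_co.TGraphs

/-!
# One mixture of `T`-graphs dominates all homomorphism densities at once (MP_35cd17_co)

The starting file `TGraphs` proves the `T`-graph conjecture (Q1): for one graph `G` the upper
boundary `f(G, β)` is attained by a `T`-graph, where the parameter `q` depends on `G`. Here all
graphs `G` are treated at the same time.

The joint profile is the closure, in the product topology, of the set of the points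
`(2e/n², (hom(G,H)/n^v)_G)`, where `G` runs through all finite graphs (these are the points
given by the graphons). We prove that for every point `(β, y)` of the joint profile there is
one probability measure `μ` on `[0,1]` with `y_G ≤ ∫ t(G, T(q)) dμ(q)` for all graphs `G`, and that
all `T`-points belong to the joint profile; in particular, for every linear combination of
homomorphism densities with nonnegative coefficients (hence for every polynomial with nonnegative
coefficients in homomorphism densities) and every `β`, the maximum for edge density `β` is attained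
by a `T`-graph. The bound holds for every finite graph `H` with its own edge density, without error
terms.
-/

set_option autoImplicit false

namespace Pool.Agent.Results.MP_35cd17_co.UniversalMixture

open Finset Filter Topology MeasureTheory Pool.Agent.Results.MP_35cd17_co.TGraphs
open scoped Classical

/-- the finite graphs, up to isomorphism -/
abbrev Gr : Type := Σ m : ℕ, SimpleGraph (Fin m)

/-- The point `(2e/n², (hom(G,H)/n^v)_G)` of a graph `H` with vertex set `Fin n`; `G` runs through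
all finite graphs. -/
noncomputable def jointPoint {n : ℕ} (H : SimpleGraph (Fin n)) : ℝ × (Gr → ℝ) :=
  (2 * (H.edgeSet.ncard : ℝ) / (n : ℝ) ^ 2,
    fun g => (Nat.card (g.2 →g H) : ℝ) / (n : ℝ) ^ g.1)

/-- The joint profile of all graphs (product topology). -/
def jointProfile : Set (ℝ × (Gr → ℝ)) :=
  closure {p | ∃ n : ℕ, 0 < n ∧ ∃ H : SimpleGraph (Fin n), p = jointPoint H}

open Pool.Agent.H488R3 Pool.Agent.Y375.TG

theorem jointPoint_eq {n : ℕ} (H : SimpleGraph (Fin n)) :
    jointPoint H = ((EE H : ℝ) / (n : ℝ) ^ 2,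
      fun g : Gr => ((HM g.2 H).card : ℝ) / (n : ℝ) ^ g.1) := by
  unfold jointPoint
  rw [two_mul_edges]
  simp only [card_hom]

/-- the main inequality for finite nonnegative combinations -/
theorem comb {p : ℝ × (Gr → ℝ)} (hp : p ∈ jointProfile) (c : Gr →₀ ℝ) (hc : ∀ g, 0 ≤ c g) :
    ∃ q ∈ Set.Icc (0 : ℝ) 1, ∑ g ∈ c.support, c g * p.2 g ≤
      ∑ g ∈ c.support, c g * tDensity g.2 p.1 q := by
  have hcl : IsClosed {p : ℝ × (Gr → ℝ) | (p.1, ∑ g ∈ c.support, c g * p.2 g) ∈
      CCF (fun g : Gr => g.2) c.support c} := by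
    refine (CCF_closed (fun g : Gr => g.2) c.support c).preimage ?_
    fun_prop
  have hsub : jointProfile ⊆ {p : ℝ × (Gr → ℝ) | (p.1, ∑ g ∈ c.support, c g * p.2 g) ∈
      CCF (fun g : Gr => g.2) c.support c} := by
    refine closure_minimal ?_ hcl
    rintro p ⟨n, hn, H, rfl⟩
    have : Nonempty (Fin n) := ⟨⟨0, hn⟩⟩
    rw [jointPoint_eq]
    have h1 := mem_CCF (fun g : Gr => g.2) c.support c (fun g _ => hc g) H
    unfold hd at h1
    simp only [Fintype.card_fin] at h1
    exact h1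
  obtain ⟨w, hw, he, hle⟩ := hsub hp
  obtain ⟨q, hq, hwq⟩ := exists_q hw he
  refine ⟨q, hq, hle.trans (le_of_eq ?_)⟩
  unfold tv
  refine Finset.sum_congr rfl fun g _ => ?_
  rw [hwq, ← tDensity_eq]

theorem t_continuous (g : Gr) (β : ℝ) : Continuous (tDensity g.2 β) := by
  have : tDensity g.2 β = fun q => tval g.2 (csize β q) := funext (tDensity_eq g.2 β)
  rw [this]
  exact (tval_continuous g.2).comp (csize_continuous β)

/-- the measure -/
theorem measure {p : ℝ × (Gr → ℝ)} (hp : p ∈ jointProfile) :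
    ∃ μ : Measure (Set.Icc (0 : ℝ) 1), IsProbabilityMeasure μ ∧
      ∀ g : Gr, p.2 g ≤ ∫ q, tDensity g.2 p.1 q ∂μ := by
  have hne : Nonempty (Set.Icc (0 : ℝ) 1) := ⟨⟨0, by norm_num, by norm_num⟩⟩
  let F : Gr → C(Set.Icc (0 : ℝ) 1, ℝ) := fun g =>
    ⟨fun q => tDensity g.2 p.1 q, (t_continuous g p.1).comp continuous_subtype_val⟩
  refine exists_measure (F := F) (y := p.2) fun c => ?_
  obtain ⟨q, hq, hle⟩ := comb hp c.1 c.2
  refine ⟨⟨q, hq⟩, ?_⟩
  rw [Finsupp.linearCombination_apply, Finsupp.linearCombination_apply]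
  unfold Finsupp.sum
  rw [ContinuousMap.sum_apply]
  simp only [smul_eq_mul, ContinuousMap.smul_apply]
  exact hle

/-- the `T`-points belong to the joint profile -/
theorem tpoint_mem {β q : ℝ} (h0 : 0 ≤ β) (h1 : β ≤ 1) (hq0 : 0 ≤ q) (hq1 : q ≤ 1) :
    (β, fun g : Gr => tDensity g.2 β q) ∈ jointProfile := by
  obtain ⟨a1, a2⟩ := size_mem h0 h1 hq0 hq1
  have h2 : Tendsto (fun N : ℕ => (fun g : Gr =>
      ((HM g.2 (HG (clN (csize β q) N))).card : ℝ) / (N : ℝ) ^ g.1)) atTop
      (𝓝 (fun g : Gr => tDensity g.2 β q)) := by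
    rw [tendsto_pi_nhds]
    intro g
    have h3 := hom_tendsto a1 g.2
    rw [← tDensity_eq, Fintype.card_fin] at h3
    exact h3
  have h4 := (egy_tendsto a1).prodMk_nhds h2
  rw [a2] at h4
  refine mem_closure_of_tendsto h4 ?_
  filter_upwards [eventually_gt_atTop 0] with N hN
  exact ⟨N, hN, HG (clN (csize β q) N), (jointPoint_eq _).symm⟩

theorem beta_mem {p : ℝ × (Gr → ℝ)} (hp : p ∈ jointProfile) : 0 ≤ p.1 ∧ p.1 ≤ 1 := by
  have h := comb hp 0 (by simp)
  have hcl : IsClosed {p : ℝ × (Gr → ℝ) | (p.1, ∑ g ∈ (0 : Gr →₀ ℝ).support, (0 : Gr →₀ ℝ) g *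
      p.2 g) ∈ CCF (fun g : Gr => g.2) (0 : Gr →₀ ℝ).support (0 : Gr →₀ ℝ)} := by
    refine (CCF_closed (fun g : Gr => g.2) _ _).preimage ?_
    fun_prop
  have hsub : jointProfile ⊆ {p : ℝ × (Gr → ℝ) | 0 ≤ p.1 ∧ p.1 ≤ 1} := by
    refine closure_minimal ?_ ?_
    · rintro p ⟨n, hn, H, rfl⟩
      have : Nonempty (Fin n) := ⟨⟨0, hn⟩⟩
      rw [jointPoint_eq]
      obtain ⟨w, hw, he, -⟩ := mem_CCF (fun g : Gr => g.2) ∅ 0 (fun g _ => le_rfl) H
      simp only [Fintype.card_fin] at he
      show 0 ≤ (EE H : ℝ) / (n : ℝ) ^ 2 ∧ (EE H : ℝ) / (n : ℝ) ^ 2 ≤ 1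
      rw [← he]
      obtain ⟨k0, k1⟩ := hw
      have hR := k0 .R
      have hB := k0 .B
      have hY := k0 .Y
      unfold egy
      constructor
      · positivity
      · nlinarith [mul_nonneg hR hB, mul_nonneg hR hY, mul_nonneg hB hY, sq_nonneg (w .B)]
    · have i1 : IsClosed {p : ℝ × (Gr → ℝ) | 0 ≤ p.1} := isClosed_le continuous_const (by fun_prop)
      have i2 : IsClosed {p : ℝ × (Gr → ℝ) | p.1 ≤ 1} := isClosed_le (by fun_prop) continuous_const
      exact i1.inter i2
  exact hsub hp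

/-- **One mixture of `T`-graphs for all graphs.**
(1) The `T`-graph conjecture: for every finite graph `G` and every `β ∈ [0,1]` the upper boundary
`f(G,β)` of the profile (a maximum) equals `f_T(G,β)`, which is attained.
(2) For every point `(β, y)` of the joint profile there is one probability measure `μ` on `[0,1]`
such that `y_G ≤ ∫ t(G, T(q)) dμ(q)` for all finite graphs `G` at the same time.
(3) In particular this holds for every finite graph `H` with at least one vertex and its edge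
density `2e/n²`, with no error term.
(4) All points given by `T`-graphs belong to the joint profile.
(5) For every finite linear combination of homomorphism densities with nonnegative coefficients and
every `β ∈ [0,1]` the maximum over the points of the joint profile with edge density `β` is attained
at a `T`-graph. -/
theorem result :
    (∀ (V : Type) [Fintype V] (G : SimpleGraph V) (β : ℝ), 0 ≤ β → β ≤ 1 →
      upperBoundary G β = fT G β ∧ IsGreatest {y | (β, y) ∈ profile G} (upperBoundary G β) ∧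
      ∃ q ∈ Set.Icc (0 : ℝ) 1, tDensity G β q = fT G β) ∧
    (∀ p ∈ jointProfile, (0 ≤ p.1 ∧ p.1 ≤ 1) ∧ ∃ μ : Measure (Set.Icc (0 : ℝ) 1),
      IsProbabilityMeasure μ ∧ ∀ (m : ℕ) (G : SimpleGraph (Fin m)),
        p.2 ⟨m, G⟩ ≤ ∫ q, tDensity G p.1 q ∂μ) ∧
    (∀ (n : ℕ) (H : SimpleGraph (Fin n)), 0 < n → ∃ μ : Measure (Set.Icc (0 : ℝ) 1),
      IsProbabilityMeasure μ ∧ ∀ (m : ℕ) (G : SimpleGraph (Fin m)),
        (Nat.card (G →g H) : ℝ) / (n : ℝ) ^ m ≤
          ∫ q, tDensity G (2 * (H.edgeSet.ncard : ℝ) / (n : ℝ) ^ 2) q ∂μ) ∧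
    (∀ β ∈ Set.Icc (0 : ℝ) 1, ∀ q ∈ Set.Icc (0 : ℝ) 1,
      (β, fun g : Gr => tDensity g.2 β q) ∈ jointProfile) ∧
    (∀ β ∈ Set.Icc (0 : ℝ) 1, ∀ c : Gr →₀ ℝ, (∀ g, 0 ≤ c g) → ∃ q ∈ Set.Icc (0 : ℝ) 1,
      IsGreatest {z | ∃ y : Gr → ℝ, (β, y) ∈ jointProfile ∧ z = ∑ g ∈ c.support, c g * y g}
        (∑ g ∈ c.support, c g * tDensity g.2 β q)) := by
  refine ⟨fun V _ G β h0 h1 => TGraphs.result V G β h0 h1, fun p hp => ⟨beta_mem hp, ?_⟩, ?_, ?_,
    ?_⟩
  · obtain ⟨μ, h1, h2⟩ := measure hp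
    exact ⟨μ, h1, fun m G => h2 ⟨m, G⟩⟩
  · intro n H hn
    obtain ⟨μ, h1, h2⟩ := measure (p := jointPoint H) (subset_closure ⟨n, hn, H, rfl⟩)
    exact ⟨μ, h1, fun m G => h2 ⟨m, G⟩⟩
  · intro β hβ q hq
    exact tpoint_mem hβ.1 hβ.2 hq.1 hq.2
  · intro β hβ c hc
    have hcont : Continuous (fun q => ∑ g ∈ c.support, c g * tDensity g.2 β q) :=
      continuous_finsetSum _ fun g _ => continuous_const.mul (t_continuous g β)
    obtain ⟨q, hq, hmax⟩ := isCompact_Icc.exists_isMaxOn
      (Set.nonempty_Icc.2 (zero_le_one (α := ℝ))) hcont.continuousOn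
    refine ⟨q, hq, ⟨⟨_, tpoint_mem hβ.1 hβ.2 hq.1 hq.2, rfl⟩, ?_⟩⟩
    rintro z ⟨y, hy, rfl⟩
    obtain ⟨q', hq', hle⟩ := comb hy c hc
    exact hle.trans (hmax hq')

end Pool.Agent.Results.MP_35cd17_co.UniversalMixture
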